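import Pool.Agent.H34.PS.Targets

/-!
Board `psq_modules` (`MP_669880_nt`), row MU: the primes `p ≡ 1 (mod 4)` modulo which `b` is a
square.
-/

set_option autoImplicit false

open Finset

namespace Pool.Agent.H7.PSQ

open Pool.Agent.H34.PS

namespace MU

/-- the sum over the primes for one character -/
theorem PD (hJM : T_JM) (hLB : T_LB) (hEP : T_EP) (b : ℕ) (D : ℤ) (hb : 1 ≤ b) (hD : Dok b D)
    (σ : ℝ) (hσ : 1 < σ) :
    (Summable fun p : Nat.Primes => chi D p * ((p : ℕ) : ℝ) ^ (-σ)) ∧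
    ∑' p : Nat.Primes, chi D p * ((p : ℕ) : ℝ) ^ (-σ) ≤ Real.log (2 + Real.log (4 * b)) := by
  obtain ⟨h1, h2, h3, h4, h5, h6⟩ := hJM b D hD
  obtain ⟨e1, e2, e3, -⟩ := hEP (chi D) h3 h2 h1 h4 σ hσ
  refine ⟨e1, e3.trans (Real.log_le_log e2 ?_)⟩
  have h7 := hLB (chi D) (4 * b) (by omega) h4 h5 h6 σ hσ
  push_cast at h7
  exact h7

theorem P1 (hEP : T_EP) (hZT : T_ZT) (η : ℝ) (hη : 0 < η) :
    (Summable fun p : Nat.Primes => ((p : ℕ) : ℝ) ^ (-(1 + η))) ∧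
    ∑' p : Nat.Primes, ((p : ℕ) : ℝ) ^ (-(1 + η)) ≤ Real.log (1 + 1 / η) := by
  obtain ⟨e1, e2, e3, -⟩ := hEP (fun n => if n = 0 then 0 else 1) (if_pos rfl)
    (if_neg one_ne_zero) (fun m n => by
      by_cases hm : m = 0
      · simp [hm]
      · by_cases hn : n = 0
        · simp [hn]
        · simp [hm, hn]) (fun n => by split_ifs <;> simp) (1 + η) (by linarith)
  have hp : ∀ p : Nat.Primes, (if (p : ℕ) = 0 then (0 : ℝ) else 1) * ((p : ℕ) : ℝ) ^ (-(1 + η)) =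
      ((p : ℕ) : ℝ) ^ (-(1 + η)) := fun p => by
    rw [if_neg p.2.ne_zero, one_mul]
  have hn : ∀ n : ℕ, (if n = 0 then (0 : ℝ) else 1) * (n : ℝ) ^ (-(1 + η)) =
      (n : ℝ) ^ (-(1 + η)) := fun n => by
    by_cases h : n = 0
    · rw [if_pos h, zero_mul, h, Nat.cast_zero, Real.zero_rpow (by linarith)]
    · rw [if_neg h, one_mul]
  simp only [hp] at e1 e3
  simp only [hn] at e2 e3
  exact ⟨e1, e3.trans (Real.log_le_log e2 (hZT.1 η hη).2)⟩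

theorem chi_neg (b p : ℕ) : chi (-(b : ℤ)) p = chi (-1) p * chi (b : ℤ) p := by
  unfold chi
  by_cases h : p % 2 = 1
  · rw [if_pos h, if_pos h, if_pos h, show (-(b : ℤ)) = (-1) * (b : ℤ) by ring,
      jacobiSym.mul_left]
    push_cast
    ring
  · rw [if_neg h, if_neg h, zero_mul]

theorem chi_one (p : ℕ) (h : p % 4 = 1) : chi (-1) p = 1 := by
  unfold chi
  rw [if_pos (by omega), jacobiSym.at_neg_one (Nat.odd_iff.2 (by omega)),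
    ZMod.χ₄_nat_one_mod_four h]
  norm_num

end MU

open MU in
/-- MU -/
theorem pf_MU (hJM : T_JM) (hLB : T_LB) (hEP : T_EP) (hZT : T_ZT) : T_MU := by
  intro b hb hsq η hη hη1
  obtain ⟨s1, t1⟩ := P1 hEP hZT η hη
  obtain ⟨s2, t2⟩ := PD hJM hLB hEP 1 (-1) le_rfl (Or.inr ⟨rfl, rfl⟩) (1 + η) (by linarith)
  obtain ⟨s3, t3⟩ := PD hJM hLB hEP b (b : ℤ) (by omega) (Or.inl ⟨hb, hsq, Or.inl rfl⟩)
    (1 + η) (by linarith)
  obtain ⟨s4, t4⟩ := PD hJM hLB hEP b (-(b : ℤ)) (by omega) (Or.inl ⟨hb, hsq, Or.inr rfl⟩)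
    (1 + η) (by linarith)
  have hle : ∀ p : Nat.Primes, (if (p : ℕ) % 4 = 1 ∧ chi (b : ℤ) p = 1 then
      ((p : ℕ) : ℝ) ^ (-(1 + η)) else 0) ≤
      (1 / 4) * (((p : ℕ) : ℝ) ^ (-(1 + η)) + chi (-1) p * ((p : ℕ) : ℝ) ^ (-(1 + η)) +
        chi (b : ℤ) p * ((p : ℕ) : ℝ) ^ (-(1 + η)) +
        chi (-(b : ℤ)) p * ((p : ℕ) : ℝ) ^ (-(1 + η))) := by
    intro p
    have hx : 0 ≤ ((p : ℕ) : ℝ) ^ (-(1 + η)) := by positivity
    have e1 : (1 / 4) * (((p : ℕ) : ℝ) ^ (-(1 + η)) + chi (-1) p * ((p : ℕ) : ℝ) ^ (-(1 + η)) +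
        chi (b : ℤ) p * ((p : ℕ) : ℝ) ^ (-(1 + η)) +
        chi (-(b : ℤ)) p * ((p : ℕ) : ℝ) ^ (-(1 + η))) =
        (1 / 4) * (((1 + chi (-1) p) * (1 + chi (b : ℤ) p)) * ((p : ℕ) : ℝ) ^ (-(1 + η))) := by
      rw [chi_neg]
      ring
    rw [e1]
    have h1 := (abs_le.1 ((hJM 1 (-1) (Or.inr ⟨rfl, rfl⟩)).2.2.2.1 p)).1
    have h2 := (abs_le.1 ((hJM b (b : ℤ) (Or.inl ⟨hb, hsq, Or.inl rfl⟩)).2.2.2.1 p)).1
    by_cases h : (p : ℕ) % 4 = 1 ∧ chi (b : ℤ) p = 1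
    · rw [if_pos h, chi_one p h.1, h.2]
      linarith
    · rw [if_neg h]
      exact mul_nonneg (by norm_num) (mul_nonneg (mul_nonneg (by linarith) (by linarith)) hx)
  have hs := (((s1.add s2).add s3).add s4).mul_left (1 / 4)
  have hnn : ∀ p : Nat.Primes, 0 ≤ (if (p : ℕ) % 4 = 1 ∧ chi (b : ℤ) p = 1 then
      ((p : ℕ) : ℝ) ^ (-(1 + η)) else 0) := by
    intro p
    split_ifs
    · positivity
    · exact le_rfl
  have hA := Summable.of_nonneg_of_le hnn hle hs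
  refine (hA.tsum_le_tsum hle hs).trans ?_
  rw [tsum_mul_left, ((s1.add s2).add s3).tsum_add s4, (s1.add s2).tsum_add s3, s1.tsum_add s2]
  have t2' : Real.log (2 + Real.log (4 * ((1 : ℕ) : ℝ))) = Real.log (2 + Real.log 4) := by
    norm_num
  rw [t2'] at t2
  linarith

end Pool.Agent.H7.PSQ
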